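import Pool.Agent.H32.URec

set_option autoImplicit false

open Topology

namespace Pool.Agent.Results.MP_3e9a14_an.DeltaInv

/-- the vectors all of whose return sets meet every difference set -/
def DRec {X : Type} [TopologicalSpace X] (T : X → X) : Set X :=
  {x | ∀ U ∈ 𝓝 x, ∀ s : ℕ → ℕ, StrictMono s → (∀ i, 0 < s i) →
    ∃ i j : ℕ, i < j ∧ T^[s j - s i] x ∈ U}

/-- The inverse of an invertible Delta-star recurrent operator is Delta-star recurrent. -/
theorem result (𝕜 : Type) [RCLike 𝕜] (X : Type) [AddCommGroup X] [Module 𝕜 X] [UniformSpace X]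
    [IsUniformAddGroup X] [ContinuousSMul 𝕜 X] [CompleteSpace X]
    [TopologicalSpace.MetrizableSpace X] (T : X ≃L[𝕜] X) (h : Dense (DRec T)) :
    Dense (DRec T.symm) := by
  refine h.mono fun x hx U hU s hs _ => ?_
  refine Pool.Agent.H32.URec.dr_inv (T := T) T.continuous T.symm.continuous T.symm_apply_apply
    (fun V hV s hs => ?_) U hU s hs
  simpa only [Nat.add_sub_add_right] using hx V hV (fun i => s i + 1)
    (fun _ _ h => Nat.succ_lt_succ (hs h)) fun _ => Nat.succ_pos _

end Pool.Agent.Results.MP_3e9a14_an.DeltaInv
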