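import Pool.Agent.H32.IPInv

set_option autoImplicit false

open Topology

namespace Pool.Agent.Results.MP_3e9a14_an.IPInv

/-- the vectors all of whose return sets meet every set of finite sums -/
def IPRec {X : Type} [TopologicalSpace X] (T : X → X) : Set X :=
  {x | ∀ U ∈ 𝓝 x, ∀ a : ℕ → ℕ, (∀ i, 0 < a i) →
    ∃ F : Finset ℕ, F.Nonempty ∧ T^[∑ i ∈ F, a i] x ∈ U}

/-- The inverse of an invertible IP-star recurrent operator is IP-star recurrent. -/
theorem result (𝕜 : Type) [RCLike 𝕜] (X : Type) [AddCommGroup X] [Module 𝕜 X] [UniformSpace X]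
    [IsUniformAddGroup X] [ContinuousSMul 𝕜 X] [CompleteSpace X]
    [TopologicalSpace.MetrizableSpace X] (T : X ≃L[𝕜] X) (h : Dense (IPRec T)) :
    Dense (IPRec T.symm) :=
  h.mono fun _ hx => Pool.Agent.H32.IPInv.ip_inv T.toEquiv T.continuous T.symm.continuous hx

end Pool.Agent.Results.MP_3e9a14_an.IPInv
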