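import Pool.Agent.H32.RRInv

set_option autoImplicit false

open Filter Topology

namespace Pool.Agent.Results.MP_3e9a14_an.RRecInv

/-- upper Banach density -/
noncomputable def ubd (A : Set ℕ) : ℝ :=
  limsup (fun N : ℕ => ⨆ m : ℕ, ((A ∩ Set.Icc (m + 1) (m + N)).ncard : ℝ) / N) atTop

/-- the reiteratively recurrent vectors of a map -/
def RRec {X : Type} [TopologicalSpace X] (T : X → X) : Set X :=
  {x | ∀ U ∈ 𝓝 x, 0 < ubd {n | T^[n] x ∈ U}}

/-- The inverse of an invertible reiteratively recurrent operator is reiteratively recurrent. -/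
theorem result (𝕜 : Type) [RCLike 𝕜] (X : Type) [AddCommGroup X] [Module 𝕜 X] [UniformSpace X]
    [IsUniformAddGroup X] [ContinuousSMul 𝕜 X] [CompleteSpace X]
    [TopologicalSpace.MetrizableSpace X] (T : X ≃L[𝕜] X) (h : Dense (RRec T)) :
    Dense (RRec T.symm) := by
  have := IsUniformAddGroup.uniformity_countably_generated (α := X)
  let := UniformSpace.pseudoMetricSpace X
  exact (h.mono (s₂ := closure (RRec T.symm)) fun _ hx => Pool.Agent.H32.RRInv.rr_inv
    (T := T) T.continuous T.symm.continuous T.symm_apply_apply hx).of_closure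

end Pool.Agent.Results.MP_3e9a14_an.RRecInv
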