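import Pool.Agent.H32.URec

set_option autoImplicit false

open Topology

namespace Pool.Agent.Results.MP_3e9a14_an.URecInv

/-- the uniformly recurrent vectors of a map -/
def URec {X : Type} [TopologicalSpace X] (T : X → X) : Set X :=
  {x | ∀ U ∈ 𝓝 x, ∃ g : ℕ, ∀ k : ℕ, ∃ n : ℕ, k ≤ n ∧ n ≤ k + g ∧ 1 ≤ n ∧ T^[n] x ∈ U}

/-- The inverse of an invertible uniformly recurrent operator is uniformly recurrent. -/
theorem result (𝕜 : Type) [RCLike 𝕜] (X : Type) [AddCommGroup X] [Module 𝕜 X] [UniformSpace X]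
    [IsUniformAddGroup X] [ContinuousSMul 𝕜 X] [CompleteSpace X]
    [TopologicalSpace.MetrizableSpace X] (T : X ≃L[𝕜] X) (h : Dense (URec T)) :
    Dense (URec T.symm) := by
  refine h.mono fun x hx U hU => ?_
  obtain ⟨g, hg⟩ := Pool.Agent.H32.URec.ur_inv (T := T) T.symm.continuous T.symm_apply_apply
    (fun V hV => (hx V hV).imp fun g hg k => (hg k).imp fun n hn => ⟨hn.1, hn.2.1, hn.2.2.2⟩) U hU
  refine ⟨g + 1, fun k => ?_⟩
  obtain ⟨n, h1, h2, h3⟩ := hg (k + 1)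
  exact ⟨n, by omega, by omega, by omega, h3⟩

end Pool.Agent.Results.MP_3e9a14_an.URecInv
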